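import Pool.Agent.H528R2.ZZ
import Mathlib.NumberTheory.Height.EllipticCurve
import Mathlib.NumberTheory.Height.NumberField

/-!
# Lower bound for the height of `zz m`

The height of the multiple `m P0` goes to infinity at least linearly with `|m|`.
-/

set_option autoImplicit false

namespace Pool.Agent.H528R3

open Pool.Agent.H528R2 WeierstrassCurve Height

lemma W_Δ : W.Δ = -17305600 := by
  simp only [WeierstrassCurve.Δ, WeierstrassCurve.b₂, WeierstrassCurve.b₄, WeierstrassCurve.b₆,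
    WeierstrassCurve.b₈, W]
  norm_num

instance : W.IsElliptic := ⟨by rw [W_Δ]; exact (by norm_num : (-17305600 : ℚ) ≠ 0).isUnit⟩

/-- the approximate parallelogram law for `zz` -/
theorem parallelogram : ∃ C : ℝ, ∀ P Q : Pt, P ≠ 0 → Q ≠ 0 → ptX P ≠ ptX Q →
    |logHeight₁ (ptX (P + Q)) + logHeight₁ (ptX (P - Q)) -
      2 * (logHeight₁ (ptX P) + logHeight₁ (ptX Q))| ≤ C := by
  obtain ⟨C₁, h₁⟩ := abs_logHeight_addSubMap_sub_two_mul_logHeight_le W
  obtain ⟨C₂, h₂⟩ := abs_logHeight_sym2_sub_le ℚ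
  refine ⟨C₁ + 3 * C₂, fun P Q hP hQ hne => ?_⟩
  have hs := pt_sum hP hQ hne
  have hp := pt_prod hP hQ hne
  have hd : ptX P - ptX Q ≠ 0 := sub_ne_zero.mpr hne
  generalize ptX (P + Q) = s at *
  generalize ptX (P - Q) = d at *
  generalize ptX P = x at *
  generalize ptX Q = y at *
  have ne1 : ∀ a : ℚ, ![a, 1] ≠ 0 := fun a h => by simpa using congrFun h 1
  have e1 := h₂ (ne1 x) (ne1 y)
  have e2 := h₂ (ne1 s) (ne1 d)
  have e3 := h₁ ![x * y, x * 1 + 1 * y, 1 * 1]
  have e4 : (fun i ↦ (addSubMap W i).eval ![x * y, x * 1 + 1 * y, 1 * 1]) =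
      ((x - y) ^ 2) • ![s * d, s * 1 + 1 * d, 1 * 1] := by
    funext i
    fin_cases i
    · simp [addSubMap, W, WeierstrassCurve.b₂, WeierstrassCurve.b₄, WeierstrassCurve.b₆,
        WeierstrassCurve.b₈]
      rw [hp]
      field_simp
      ring
    · simp [addSubMap, W, WeierstrassCurve.b₂, WeierstrassCurve.b₄, WeierstrassCurve.b₆,
        WeierstrassCurve.b₈]
      rw [hs]
      field_simp
      ring
    · simp [addSubMap, W]
      ring
  rw [e4, logHeight_smul_eq_logHeight _ (pow_ne_zero 2 hd)] at e3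
  simp only [← logHeight₁_eq_logHeight] at e1 e2
  rw [abs_le] at *
  constructor <;> linarith [e1.1, e1.2, e2.1, e2.2, e3.1, e3.2]

/-- the height of `m P0` -/
noncomputable def ht (m : ℤ) : ℝ := logHeight₁ (zz m)

lemma ht_nonneg (m : ℤ) : 0 ≤ ht m := zero_le_logHeight₁ _

lemma ht_neg (m : ℤ) : ht (-m) = ht m := by unfold ht; rw [zz_neg]

theorem ht_para : ∃ C : ℝ, ∀ m n : ℤ, m ≠ 0 → n ≠ 0 → m ≠ n → m ≠ -n →
    |ht (m + n) + ht (m - n) - 2 * (ht m + ht n)| ≤ C := by
  obtain ⟨C, hC⟩ := parallelogram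
  refine ⟨C, fun m n hm hn h1 h2 => ?_⟩
  have hne : ptX (m • P0) ≠ ptX (n • P0) := by
    intro h
    rcases (zz_eq_iff hm hn).1 h with h | h
    · exact h1 h
    · exact h2 h
  have := hC (m • P0) (n • P0) (smul_P0_ne hm) (smul_P0_ne hn) hne
  unfold ht zz
  rw [add_zsmul, sub_zsmul]
  rw [sub_eq_add_neg] at this
  exact this

/-- the heights are unbounded -/
theorem ht_unbounded (B : ℝ) : ∃ N : ℕ, 0 < N ∧ B < ht N := by
  by_contra hcon
  push Not at hcon
  have hfin := NumberField.finite_setOfPred_logHeight₁_le (K := ℚ) B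
  have hinj : Set.InjOn (fun k : ℕ => zz (k : ℤ)) {k : ℕ | 0 < k} := by
    intro a ha b hb hab
    have ha' : (0 : ℤ) < a := by exact_mod_cast ha
    have hb' : (0 : ℤ) < b := by exact_mod_cast hb
    rcases (zz_eq_iff ha'.ne' hb'.ne').1 hab with h | h
    · exact_mod_cast h
    · omega
  have hinf : Set.Infinite {k : ℕ | 0 < k} := Set.infinite_of_not_bddAbove (by
    rintro ⟨M, hM⟩
    have := hM (show M + 1 ∈ {k : ℕ | 0 < k} from Nat.succ_pos _)
    omega)
  apply (Set.infinite_image_iff hinj).2 hinf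
  refine hfin.subset ?_
  rintro _ ⟨k, hk, rfl⟩
  exact hcon k hk

/-- a strictly convex sequence grows at least linearly -/
lemma convex_growth (g : ℕ → ℝ) (hg : ∀ j, 0 ≤ g j)
    (h : ∀ j, 2 * g (j + 1) + 2 ≤ g (j + 2) + g j) : ∃ K : ℝ, ∀ j : ℕ, (j : ℝ) - K ≤ g j := by
  -- increments
  have h1 : ∀ j : ℕ, (g 1 - g 0) + 2 * j ≤ g (j + 1) - g j := by
    intro j
    induction j with
    | zero => simp
    | succ j ih =>
      have := h j
      push_cast
      linarith
  have h2 : ∀ j : ℕ, (g 1 - g 0) * j + j * (j - 1) ≤ g j := by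
    intro j
    induction j with
    | zero => simpa using hg 0
    | succ j ih =>
      have := h1 j
      push_cast
      nlinarith
  set D := g 1 - g 0
  refine ⟨(D - 2) ^ 2 / 4, fun j => ?_⟩
  have := h2 j
  nlinarith [sq_nonneg ((j : ℝ) + (D - 2) / 2)]

/-- linear lower bound for the height of `m P0` -/
theorem ht_lower : ∃ N : ℕ, 0 < N ∧ ∃ K : ℝ, ∀ m : ℕ, 0 < m → (m : ℝ) / N - K ≤ ht m := by
  obtain ⟨C, hC⟩ := ht_para
  obtain ⟨N, hN, hN2⟩ := ht_unbounded ((C + 2) / 2)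
  refine ⟨N, hN, ?_⟩
  have hN' : (0 : ℤ) < N := by exact_mod_cast hN
  have key : ∀ r : ℕ, ∃ K : ℝ, ∀ j : ℕ, (j : ℝ) - K ≤ ht ((r + 1 + j * N : ℕ) : ℤ) := by
    intro r
    apply convex_growth _ (fun j => ht_nonneg _)
    intro j
    have := hC ((r + 1 + (j + 1) * N : ℕ) : ℤ) N (by positivity) hN'.ne'
      (by push_cast; nlinarith) (by push_cast; nlinarith)
    have e1 : ((r + 1 + (j + 1) * N : ℕ) : ℤ) + N = ((r + 1 + (j + 2) * N : ℕ) : ℤ) := by
      push_cast; ring
    have e2 : ((r + 1 + (j + 1) * N : ℕ) : ℤ) - N = ((r + 1 + j * N : ℕ) : ℤ) := by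
      push_cast; ring
    rw [e1, e2, abs_le] at this
    linarith [this.1]
  choose K hK using key
  obtain ⟨K', hK'⟩ : ∃ K' : ℝ, ∀ r < N, K r ≤ K' := by
    refine ⟨∑ r ∈ Finset.range N, |K r|, fun r hr => ?_⟩
    exact (le_abs_self _).trans
      (Finset.single_le_sum (f := fun r => |K r|) (fun i _ => abs_nonneg _)
        (Finset.mem_range.2 hr))
  refine ⟨K' + 1, fun m hm => ?_⟩
  have h1 := hK ((m - 1) % N) ((m - 1) / N)
  have h2 := hK' _ (Nat.mod_lt (m - 1) hN)
  have e : (m - 1) % N + 1 + (m - 1) / N * N = m := by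
    have := Nat.mod_add_div (m - 1) N
    rw [mul_comm] at this
    omega
  rw [e] at h1
  have h3 : (m : ℝ) / N ≤ ((m - 1) / N : ℕ) + 1 := by
    rw [div_le_iff₀ (by exact_mod_cast hN)]
    have : m ≤ ((m - 1) / N + 1) * N := by
      have h4 := Nat.mod_lt (m - 1) hN
      have h5 := Nat.mod_add_div (m - 1) N
      have h6 : ((m - 1) / N + 1) * N = N * ((m - 1) / N) + N := by ring
      omega
    calc (m : ℝ) ≤ ((((m - 1) / N + 1) * N : ℕ) : ℝ) := by exact_mod_cast this
      _ = _ := by push_cast; ring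
  linarith

end Pool.Agent.H528R3
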