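import Pool.Agent.H528R3.Step
import Pool.Agent.H528R2.CoreB

/-!
# Growth: the number of inert primes dividing `M` is (almost) squared at each step
-/

set_option autoImplicit false

namespace Pool.Agent.H528R3

open Pool.Agent.H528R2 Pool.Agent.H528R2.Chain Classical

/-- the inert primes `≥ 11` dividing `M` -/
noncomputable def UU (M : ℤ) : Finset ℕ :=
  M.natAbs.primeFactors.filter (fun u => Inert u ∧ 11 ≤ u)

theorem mem_UU {M : ℤ} (hM : M ≠ 0) {u : ℕ} :
    u ∈ UU M ↔ Inert u ∧ 11 ≤ u ∧ (u : ℤ) ∣ M := by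
  unfold UU
  rw [Finset.mem_filter, Nat.mem_primeFactors]
  constructor
  · rintro ⟨⟨-, h1, -⟩, h2, h3⟩
    exact ⟨h2, h3, Int.natCast_dvd.2 h1⟩
  · rintro ⟨h1, h2, h3⟩
    exact ⟨⟨h1.1, Int.natCast_dvd.1 h3, by simpa using hM⟩, h1, h2⟩

/-- from `rk t ∣ 8 n` and `u ∣ rk t` -/
theorem dvd_of_rk {u t : ℕ} (hu : Inert u) {n : ℤ} (h : u ∣ rk t) (hr : (rk t : ℤ) ∣ 8 * n) :
    (u : ℤ) ∣ n := by
  have h1 : (u : ℤ) ∣ 8 * n := (Int.natCast_dvd_natCast.2 h).trans hr
  have h2 : Prime (u : ℤ) := Nat.prime_iff_prime_int.1 hu.1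
  rcases h2.dvd_or_dvd h1 with h3 | h3
  · exfalso
    have h4 : (u : ℤ) ∣ 2 ^ 3 := by simpa using h3
    have h5 : u ∣ 2 ^ 3 := by exact_mod_cast h4
    exact inert_ne_two hu ((Nat.prime_dvd_prime_iff_eq hu.1 Nat.prime_two).1
      (hu.1.dvd_of_dvd_pow h5))
  · exact h3

theorem uv_dvd {u v : ℕ} (hu : Inert u) (hv : Inert v) (huv : u ≠ v) {M : ℤ}
    (h1 : (u : ℤ) ∣ M) (h2 : (v : ℤ) ∣ M) : ((u * v : ℕ) : ℤ) ∣ M := by
  have hcop : Nat.Coprime u v := (Nat.coprime_primes hu.1 hv.1).2 huv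
  rw [Int.natCast_dvd] at *
  exact hcop.mul_dvd_of_dvd_of_dvd h1 h2

/-- a pair of primes which is not exceptional -/
def Nc (u v : ℕ) : Prop := rk u ≠ v ∧ rk v ≠ u

theorem pair_mem {M M' : ℤ} (ho : Odd M) (h : Nx M M') {u v : ℕ}
    (hu : Inert u) (hv : Inert v) (hu11 : 11 ≤ u) (hv11 : 11 ≤ v) (huv : u ≠ v)
    (hnc : Nc u v) (huM : (u : ℤ) ∣ M) (hvM : (v : ℤ) ∣ M) : (u : ℤ) ∣ M' ∧ (v : ℤ) ∣ M' := by
  obtain ⟨t, ht, -, hr, hodd, h1, h2⟩ := core hu hv huv hu11 hv11 (i := 0) (j := 0) ho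
    (by simpa using uv_dvd hu hv huv huM hvM)
    (by
      simp only [pow_zero, zero_add, pow_one, one_mul]
      rintro ⟨h3, h4⟩
      exact hnc.1 (Nat.dvd_antisymm h4 h3))
    (by
      simp only [pow_zero, zero_add, pow_one, one_mul]
      rintro ⟨h3, h4⟩
      exact hnc.2 (Nat.dvd_antisymm h4 h3))
  have h3 := (h t ht hr hodd).1
  have e1 : u ∣ rk t := by
    have := @pow_padicValNat_dvd u (rk t)
    rw [h1] at this
    simpa using this
  have e2 : v ∣ rk t := by
    have := @pow_padicValNat_dvd v (rk t)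
    rw [h2] at this
    simpa using this
  exact ⟨dvd_of_rk hu e1 h3, dvd_of_rk hv e2 h3⟩

/-- the new prime attached to a pair -/
theorem exists_new {M M' : ℤ} (hM : M ≠ 0) (hM' : M' ≠ 0) (ho : Odd M) (h : Nx M M') {u v : ℕ}
    (hu : Inert u) (hv : Inert v) (hu11 : 11 ≤ u) (hv11 : 11 ≤ v) (huv : u ≠ v)
    (hnc : Nc u v) (huM : (u : ℤ) ∣ M) (hvM : (v : ℤ) ∣ M) :
    ∃ t ∈ UU M', u ∣ rk t ∧ v ∣ rk t ∧ rk t ∣ 8 * (u * v) := by
  have hou : Odd ((u * v : ℕ) : ℤ) := by
    have h1 := CoreB.odd_inert hu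
    have h2 := CoreB.odd_inert hv
    exact_mod_cast h1.mul h2
  have h0uv : ((u * v : ℕ) : ℤ) ≠ 0 := by
    exact_mod_cast Nat.mul_ne_zero hu.1.ne_zero hv.1.ne_zero
  obtain ⟨t, ht, ht0, hr, hodd, h1, h2⟩ := core hu hv huv hu11 hv11 (i := 0) (j := 0) hou
    (by simp)
    (by
      simp only [pow_zero, zero_add, pow_one, one_mul]
      rintro ⟨h3, h4⟩
      exact hnc.1 (Nat.dvd_antisymm h4 h3))
    (by
      simp only [pow_zero, zero_add, pow_one, one_mul]
      rintro ⟨h3, h4⟩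
      exact hnc.2 (Nat.dvd_antisymm h4 h3))
  have e1 : u ∣ rk t := by
    have := @pow_padicValNat_dvd u (rk t)
    rw [h1] at this
    simpa using this
  have e2 : v ∣ rk t := by
    have := @pow_padicValNat_dvd v (rk t)
    rw [h2] at this
    simpa using this
  have hge := ge_of_rk ht hu hv huv hu11 hv11 ht0 e1 e2
  have hge' := ge_of_rk ht hv hu huv.symm hv11 hu11 ht0 e2 e1
  have hrk := rk_le ht (by omega)
  have huvd : u * v ∣ rk t :=
    Nat.Coprime.mul_dvd_of_dvd_of_dvd ((Nat.coprime_primes hu.1 hv.1).2 huv) e1 e2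
  have huvle : u * v ≤ rk t := Nat.le_of_dvd (Nat.pos_of_ne_zero ht0) huvd
  have hvis : Vis t M := by
    refine Vis.of_dvd (m := ((u * v : ℕ) : ℤ)) hr (uv_dvd hu hv huv huM hvM)
  have hr' : rk t ∣ 8 * (u * v) := by exact_mod_cast hr
  refine ⟨t, ?_, e1, e2, hr'⟩
  rw [mem_UU hM']
  refine ⟨ht, by omega, ?_⟩
  by_cases htM : (t : ℤ) ∣ M
  · -- an old prime
    have hne : t ≠ u := by omega
    have hncu : Nc t u := by
      constructor
      · intro h3
        rw [h3] at e2
        exact huv ((Nat.prime_dvd_prime_iff_eq hv.1 hu.1).1 e2).symm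
      · intro h3
        have h4 := rk_le hu (by omega)
        have h5 : u * 11 ≤ u * v := Nat.mul_le_mul_left u hv11
        omega
    exact (pair_mem ho h ht hu (by omega) hu11 hne hncu htM huM).1
  · have hd1 := dd_eight ht hM hvis
    have hd2 := dd_eight ht h0uv (show Vis t ((u * v : ℕ) : ℤ) from hr)
    have hf := Fact.mk ht.1
    have hv1 : padicValInt t M = 0 := padicValInt.eq_zero_of_not_dvd htM
    have hv2 : padicValInt t ((u * v : ℕ) : ℤ) = 0 := by
      apply padicValInt.eq_zero_of_not_dvd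
      intro h3
      have h4 : t ∣ u * v := by exact_mod_cast h3
      rcases (Nat.Prime.dvd_mul ht.1).1 h4 with h5 | h5
      · have := (Nat.prime_dvd_prime_iff_eq ht.1 hu.1).1 h5
        omega
      · have := (Nat.prime_dvd_prime_iff_eq ht.1 hv.1).1 h5
        omega
    have hdd : dd t (8 * M) = dd t (8 * ((u * v : ℕ) : ℤ)) := by omega
    have h3 := (h t ht hvis (by rw [hdd]; exact hodd)).2
    have h4 : (t : ℤ) ^ 1 ∣ M' := by
      rw [padicValInt_dvd_iff]
      right; omega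
    simpa using h4

/-- number of non-exceptional pairs -/
theorem card_nc (U : Finset ℕ) :
    U.card * U.card ≤ (U.offDiag.filter (fun p => Nc p.1 p.2)).card + 3 * U.card := by
  have h1 : (U.offDiag.filter (fun p => ¬ Nc p.1 p.2)).card ≤ U.card + U.card := by
    have hsub : U.offDiag.filter (fun p => ¬ Nc p.1 p.2) ⊆
        (U.image (fun u => (u, rk u))) ∪ (U.image (fun v => (rk v, v))) := by
      intro p hp
      rw [Finset.mem_filter, Finset.mem_offDiag] at hp
      obtain ⟨⟨hp1, hp2, -⟩, hp4⟩ := hp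
      unfold Nc at hp4
      rw [Finset.mem_union, Finset.mem_image, Finset.mem_image]
      by_cases h : rk p.1 = p.2
      · left; exact ⟨p.1, hp1, Prod.ext rfl h⟩
      · right
        refine ⟨p.2, hp2, Prod.ext ?_ rfl⟩
        by_contra h'
        exact hp4 ⟨h, h'⟩
    exact (Finset.card_le_card hsub).trans ((Finset.card_union_le _ _).trans
      (Nat.add_le_add Finset.card_image_le Finset.card_image_le))
  have h2 := Finset.card_filter_add_card_filter_not (s := U.offDiag) (fun p => Nc p.1 p.2)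
  have h3 := Finset.offDiag_card U
  have h4 : U.card ≤ U.card * U.card := by
    rcases Nat.eq_zero_or_pos U.card with h | h
    · simp [h]
    · exact Nat.le_mul_of_pos_left _ h
  omega

/-- the growth of the number of primes -/
theorem card_growth {M M' : ℤ} (ho : Odd M) (hM' : M' ≠ 0) (h : Nx M M') :
    (UU M).card * (UU M).card ≤ 2 * (UU M').card + 3 * (UU M).card := by
  have hM : M ≠ 0 := by rintro rfl; simp at ho
  set U := UU M with hU
  set S := U.offDiag.filter (fun p => Nc p.1 p.2) with hS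
  have key : ∀ p ∈ S, ∃ t ∈ UU M', p.1 ∣ rk t ∧ p.2 ∣ rk t ∧ rk t ∣ 8 * (p.1 * p.2) := by
    intro p hp
    rw [hS, Finset.mem_filter, Finset.mem_offDiag] at hp
    obtain ⟨⟨hp1, hp2, hp3⟩, hp4⟩ := hp
    rw [hU, mem_UU hM] at hp1 hp2
    exact exists_new hM hM' ho h hp1.1 hp2.1 hp1.2.1 hp2.2.1 hp3 hp4 hp1.2.2 hp2.2.2
  choose! f hf using key
  have h1 : S.card ≤ 2 * (S.image f).card := by
    apply Finset.card_le_mul_card_image
    intro t ht
    obtain ⟨p, hp, rfl⟩ := Finset.mem_image.1 ht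
    have hsub : S.filter (fun x => f x = f p) ⊆ {p, (p.2, p.1)} := by
      intro q hq
      rw [Finset.mem_filter] at hq
      obtain ⟨hq, hqe⟩ := hq
      have hp' := hf p hp
      have hq' := hf q hq
      rw [hqe] at hq'
      rw [hS, Finset.mem_filter, Finset.mem_offDiag] at hp hq
      obtain ⟨⟨hp1, hp2, hp3⟩, -⟩ := hp
      obtain ⟨⟨hq1, hq2, hq3⟩, -⟩ := hq
      rw [hU, mem_UU hM] at hp1 hp2 hq1 hq2
      have aux : ∀ a : ℕ, Inert a → a ∣ rk (f p) → a = p.1 ∨ a = p.2 := by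
        intro a ha had
        have h5 : a ∣ 8 * (p.1 * p.2) := had.trans hp'.2.2.2
        rcases (Nat.Prime.dvd_mul ha.1).1 h5 with h6 | h6
        · exfalso
          have h7 : a ∣ 2 ^ 3 := by simpa using h6
          exact inert_ne_two ha ((Nat.prime_dvd_prime_iff_eq ha.1 Nat.prime_two).1
            (ha.1.dvd_of_dvd_pow h7))
        · rcases (Nat.Prime.dvd_mul ha.1).1 h6 with h7 | h7
          · left; exact (Nat.prime_dvd_prime_iff_eq ha.1 hp1.1.1).1 h7
          · right; exact (Nat.prime_dvd_prime_iff_eq ha.1 hp2.1.1).1 h7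
      have a1 := aux q.1 hq1.1 hq'.2.1
      have a2 := aux q.2 hq2.1 hq'.2.2.1
      rw [Finset.mem_insert, Finset.mem_singleton]
      rcases a1 with a1 | a1 <;> rcases a2 with a2 | a2
      · exact absurd (a1.trans a2.symm) hq3
      · left; exact Prod.ext a1 a2
      · right; exact Prod.ext a1 a2
      · exact absurd (a1.trans a2.symm) hq3
    exact (Finset.card_le_card hsub).trans (Finset.card_le_two)
  have h2 : (S.image f).card ≤ (UU M').card := by
    apply Finset.card_le_card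
    intro t ht
    obtain ⟨p, hp, rfl⟩ := Finset.mem_image.1 ht
    exact (hf p hp).1
  have h3 := card_nc U
  rw [← hS] at h3
  omega

/-- a product of inert primes -/
theorem pow_le {M : ℤ} (hM : M ≠ 0) : 11 ^ (UU M).card ≤ M.natAbs := by
  have h1 : 11 ^ (UU M).card ≤ ∏ u ∈ UU M, u := by
    rw [← Finset.prod_const]
    apply Finset.prod_le_prod'
    intro u hu
    exact ((mem_UU hM).1 hu).2.1
  refine h1.trans (Nat.le_of_dvd (by simpa [Nat.pos_iff_ne_zero] using hM) ?_)
  apply Finset.prod_primes_dvd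
  · intro u hu
    exact ((mem_UU hM).1 hu).1.1.prime
  · intro u hu
    exact Int.natCast_dvd.1 ((mem_UU hM).1 hu).2.2

/-- a chain of steps -/
theorem chain_growth (M : ℕ → ℤ) (m : ℕ) (ho : ∀ i ≤ m, Odd (M i))
    (h : ∀ i < m, Nx (M i) (M (i + 1))) (h8 : 8 ≤ (UU (M 0)).card) :
    ∀ i ≤ m, 4 * 2 ^ (2 ^ i) ≤ (UU (M i)).card := by
  intro i
  induction i with
  | zero => intro _; simpa using h8
  | succ i ih =>
    intro hi
    have ih := ih (by omega)
    have h1 := card_growth (ho i (by omega))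
      (by have := ho (i + 1) hi; rintro h0; rw [h0] at this; simp at this) (h i (by omega))
    set k := (UU (M i)).card with hk
    set k' := (UU (M (i + 1))).card with hk'
    set a := 2 ^ (2 ^ i) with ha
    have ha2 : 2 ≤ a := by
      rw [ha]
      calc 2 = 2 ^ 1 := rfl
        _ ≤ 2 ^ (2 ^ i) := Nat.pow_le_pow_right (by norm_num) Nat.one_le_two_pow
    have e : 2 ^ (2 ^ (i + 1)) = a * a := by
      rw [ha, ← pow_add]; congr 1; ring
    rw [e]
    nlinarith

/-- the last index of a chain is triply exponential -/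
theorem chain_large (M : ℕ → ℤ) (m : ℕ) (ho : ∀ i ≤ m, Odd (M i))
    (h : ∀ i < m, Nx (M i) (M (i + 1))) (h8 : 8 ≤ (UU (M 0)).card) :
    11 ^ (4 * 2 ^ (2 ^ m)) ≤ (M m).natAbs := by
  have h1 := chain_growth M m ho h h8 m le_rfl
  have h2 : M m ≠ 0 := by have := ho m le_rfl; rintro h0; rw [h0] at this; simp at this
  exact (Nat.pow_le_pow_right (by norm_num) h1).trans (pow_le h2)

end Pool.Agent.H528R3
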