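import Pool.Agent.H528R2.QDefs

/-!
# From systems of elementary constraints to one polynomial of degree at most `4`
-/

set_option autoImplicit false

namespace Pool.Agent.H528R3

open Pool.Agent.H528R2 Pool.Agent.NPC MvPolynomial

/-! ### the sum of the absolute values of the coefficients -/

/-- the sum of the absolute values of the coefficients -/
noncomputable def l1 {σ : Type*} (p : MvPolynomial σ ℤ) : ℤ := ∑ m ∈ p.support, |p.coeff m|

theorem l1_eq {σ : Type*} (p : MvPolynomial σ ℤ) (s : Finset (σ →₀ ℕ)) (h : p.support ⊆ s) :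
    l1 p = ∑ m ∈ s, |p.coeff m| := by
  unfold l1
  apply Finset.sum_subset h
  intro m _ hm
  rw [MvPolynomial.notMem_support_iff.1 hm, abs_zero]

theorem l1_add {σ : Type*} (p q : MvPolynomial σ ℤ) : l1 (p + q) ≤ l1 p + l1 q := by
  classical
  have h : (p + q).support ⊆ p.support ∪ q.support := MvPolynomial.support_add
  rw [l1_eq (p + q) _ h, l1_eq p _ Finset.subset_union_left, l1_eq q _ Finset.subset_union_right,
    ← Finset.sum_add_distrib]
  apply Finset.sum_le_sum
  intro m _
  rw [coeff_add]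
  exact abs_add_le _ _

theorem l1_nonneg {σ : Type*} (p : MvPolynomial σ ℤ) : 0 ≤ l1 p :=
  Finset.sum_nonneg fun _ _ => abs_nonneg _

theorem l1_zero {σ : Type*} : l1 (0 : MvPolynomial σ ℤ) = 0 := by simp [l1]

theorem l1_sum {σ ι : Type*} (s : Finset ι) (f : ι → MvPolynomial σ ℤ) :
    l1 (∑ i ∈ s, f i) ≤ ∑ i ∈ s, l1 (f i) := by
  classical
  induction s using Finset.induction_on with
  | empty => simp [l1_zero]
  | insert a s ha ih =>
    rw [Finset.sum_insert ha, Finset.sum_insert ha]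
    exact (l1_add _ _).trans (by linarith)

theorem l1_monomial {σ : Type*} (m : σ →₀ ℕ) (a : ℤ) : l1 (monomial m a) ≤ |a| := by
  classical
  rw [l1_eq (monomial m a) {m} support_monomial_subset, Finset.sum_singleton, coeff_monomial,
    if_pos rfl]

theorem l1_rename {σ τ : Type*} (f : σ → τ) (p : MvPolynomial σ ℤ) : l1 (rename f p) ≤ l1 p := by
  conv_lhs => rw [p.as_sum]
  rw [map_sum]
  refine (l1_sum _ _).trans ?_
  unfold l1
  apply Finset.sum_le_sum
  intro m _
  rw [rename_monomial]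
  exact l1_monomial _ _

/-! ### the polynomial of a system -/

/-- the polynomial of a constraint -/
noncomputable def polC : ER.Con → MvPolynomial ℕ ℤ
  | .one i => X i - 1
  | .add i j k => X i + X j - X k
  | .mul i j k => X i * X j - X k

theorem polC_eval (v : ℕ → ℚ) (c : ER.Con) : aeval v (polC c) = 0 ↔ HoldsQ v c := by
  cases c with
  | one i => simp [polC, HoldsQ, sub_eq_zero]
  | add i j k => simp [polC, HoldsQ, sub_eq_zero]
  | mul i j k => simp [polC, HoldsQ, sub_eq_zero]

theorem polC_deg (c : ER.Con) : (polC c).totalDegree ≤ 2 := by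
  cases c with
  | one i =>
    refine (totalDegree_sub _ _).trans (max_le ?_ ?_)
    · exact (totalDegree_X (R := ℤ) i).le.trans (by norm_num)
    · rw [totalDegree_one]; norm_num
  | add i j k =>
    refine (totalDegree_sub _ _).trans (max_le ((totalDegree_add _ _).trans (max_le ?_ ?_)) ?_) <;>
      exact (totalDegree_X (R := ℤ) _).le.trans (by norm_num)
  | mul i j k =>
    refine (totalDegree_sub _ _).trans (max_le ((totalDegree_mul _ _).trans ?_) ?_)
    · rw [totalDegree_X, totalDegree_X]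
    · exact (totalDegree_X (R := ℤ) _).le.trans (by norm_num)

/-- the polynomial of a system -/
noncomputable def polS (S : List ER.Con) : MvPolynomial ℕ ℤ := (S.map (fun c => polC c ^ 2)).sum

theorem polS_cons (c : ER.Con) (S : List ER.Con) : polS (c :: S) = polC c ^ 2 + polS S := by
  simp [polS]

theorem polS_deg (S : List ER.Con) : (polS S).totalDegree ≤ 4 := by
  induction S with
  | nil => simp [polS]
  | cons c S ih =>
    rw [polS_cons]
    refine (totalDegree_add _ _).trans (max_le ((totalDegree_pow _ _).trans ?_) ih)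
    have := polC_deg c
    omega

theorem polS_nonneg (v : ℕ → ℚ) (S : List ER.Con) : 0 ≤ aeval v (polS S) := by
  induction S with
  | nil => simp [polS]
  | cons c S ih =>
    rw [polS_cons, map_add, map_pow]
    positivity

theorem polS_eval (v : ℕ → ℚ) (S : List ER.Con) :
    aeval v (polS S) = 0 ↔ ∀ c ∈ S, HoldsQ v c := by
  induction S with
  | nil => simp [polS]
  | cons c S ih =>
    rw [polS_cons, map_add, map_pow]
    have h1 := polS_nonneg v S
    have h2 := sq_nonneg (aeval v (polC c))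
    rw [add_eq_zero_iff_of_nonneg h2 h1, ih, pow_eq_zero_iff two_ne_zero, polC_eval]
    simp

/-- a relation defined by a system of constraints is defined by one polynomial equation of degree
at most `4` -/
theorem DioQ.poly {k : ℕ} {R : (Fin k → ℚ) → Prop} (h : DioQ k R) :
    ∃ r₀ : ℕ, ∀ r, r₀ ≤ r → ∃ p : MvPolynomial (Fin k ⊕ Fin r) ℤ, p.totalDegree ≤ 4 ∧
      (∀ x : Fin k ⊕ Fin r → ℚ, 0 ≤ aeval x p) ∧
      ∀ x : Fin k → ℚ, R x ↔ ∃ y : Fin r → ℚ, aeval (Sum.elim x y) p = 0 := by
  obtain ⟨S, hS⟩ := h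
  -- bound on the variables
  obtain ⟨B, hB⟩ : ∃ B : ℕ, ∀ i ∈ (polS S).vars, i < B := by
    refine ⟨(polS S).vars.sup id + 1, fun i hi => ?_⟩
    have : id i ≤ (polS S).vars.sup id := Finset.le_sup hi
    simp only [id] at this
    omega
  refine ⟨B + 1, fun r hr => ?_⟩
  have hr0 : 0 < r := by omega
  set g : ℕ → Fin k ⊕ Fin r := fun n => if h : n < k then Sum.inl ⟨n, h⟩ else
    if h' : n < r then Sum.inr ⟨n, h'⟩ else Sum.inr ⟨0, hr0⟩ with hg
  refine ⟨rename g (polS S), (totalDegree_rename_le _ _).trans (polS_deg S), fun x => ?_,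
    fun x => ?_⟩
  · rw [aeval_rename]
    exact polS_nonneg _ S
  · rw [hS]
    constructor
    · rintro ⟨v, hv, hc⟩
      refine ⟨fun i => v i, ?_⟩
      rw [aeval_rename]
      rw [← polS_eval] at hc
      rw [← hc]
      apply eval₂Hom_congr' rfl _ rfl
      intro i hi _
      have hiB := hB i hi
      simp only [Function.comp, hg]
      by_cases h1 : i < k
      · rw [dif_pos h1, Sum.elim_inl]
        exact (hv ⟨i, h1⟩).symm
      · rw [dif_neg h1, dif_pos (by omega), Sum.elim_inr]
    · rintro ⟨y, hy⟩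
      rw [aeval_rename, polS_eval] at hy
      refine ⟨_, fun i => ?_, hy⟩
      simp only [Function.comp, hg]
      rw [dif_pos i.2, Sum.elim_inl]

/-- a chain of relations is defined by one polynomial equation of linear size -/
theorem chain_poly {R₀ : (Fin 2 → ℚ) → Prop} {R₁ : (Fin 4 → ℚ) → Prop} (h₀ : DioQ 2 R₀)
    (h₁ : DioQ 4 R₁) : ∃ r : ℕ, ∃ B : ℤ, ∀ m : ℕ,
      ∃ p : MvPolynomial (Fin (m + 1) × (Fin 2 ⊕ Fin r)) ℤ, p.totalDegree ≤ 4 ∧
        l1 p ≤ B * (m + 1) ∧
        ∀ s : ℕ → Fin 2 → ℚ, (R₀ (s 0) ∧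
          ∀ i < m, R₁ ![s i 0, s i 1, s (i + 1) 0, s (i + 1) 1]) ↔
          ∃ x : Fin (m + 1) × (Fin 2 ⊕ Fin r) → ℚ,
            (∀ i : Fin (m + 1), ∀ j, x (i, Sum.inl j) = s i j) ∧ aeval x p = 0 := by
  obtain ⟨r₀, hr₀⟩ := DioQ.poly h₀
  obtain ⟨r₁, hr₁⟩ := DioQ.poly h₁
  obtain ⟨r, hle₀, hle₁⟩ : ∃ r, r₀ ≤ r ∧ r₁ ≤ r := ⟨_, le_max_left _ _, le_max_right _ _⟩
  obtain ⟨p₀, hd₀, hn₀, hp₀⟩ := hr₀ r hle₀
  obtain ⟨p₁, hd₁, hn₁, hp₁⟩ := hr₁ r hle₁
  refine ⟨r, l1 p₀ + l1 p₁, fun m => ?_⟩
  set g₀ : Fin 2 ⊕ Fin r → Fin (m + 1) × (Fin 2 ⊕ Fin r) := fun a => (0, a) with hg₀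
  set g₁ : Fin m → (Fin 4 ⊕ Fin r → Fin (m + 1) × (Fin 2 ⊕ Fin r)) := fun i a =>
    match a with
    | Sum.inl j => ![(i.castSucc, Sum.inl 0), (i.castSucc, Sum.inl 1), (i.succ, Sum.inl 0),
        (i.succ, Sum.inl 1)] j
    | Sum.inr j => (i.succ, Sum.inr j) with hg₁
  refine ⟨rename g₀ p₀ + ∑ i : Fin m, rename (g₁ i) p₁, ?_, ?_, ?_⟩
  · refine (totalDegree_add _ _).trans (max_le ((totalDegree_rename_le _ _).trans hd₀) ?_)
    refine (totalDegree_finsetSum _ _).trans (Finset.sup_le fun i _ => ?_)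
    exact (totalDegree_rename_le _ _).trans hd₁
  · have e1 := l1_rename g₀ p₀
    have e2 : l1 (∑ i : Fin m, rename (g₁ i) p₁) ≤ m * l1 p₁ := by
      refine (l1_sum _ _).trans ((Finset.sum_le_sum fun i _ => l1_rename (g₁ i) p₁).trans ?_)
      simp
    have e3 := l1_add (rename g₀ p₀) (∑ i : Fin m, rename (g₁ i) p₁)
    have e4 := l1_nonneg p₀
    have e5 := l1_nonneg p₁
    have e6 : (0 : ℤ) ≤ m := by positivity
    nlinarith [mul_nonneg e6 e4]
  · intro s
    have heval : ∀ x : Fin (m + 1) × (Fin 2 ⊕ Fin r) → ℚ,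
        aeval x (rename g₀ p₀ + ∑ i : Fin m, rename (g₁ i) p₁) = 0 ↔
          aeval (x ∘ g₀) p₀ = 0 ∧ ∀ i : Fin m, aeval (x ∘ g₁ i) p₁ = 0 := by
      intro x
      rw [map_add, map_sum, aeval_rename]
      have : ∀ i ∈ Finset.univ, 0 ≤ (aeval x) (rename (g₁ i) p₁) := by
        intro i _
        rw [aeval_rename]
        exact hn₁ _
      rw [add_eq_zero_iff_of_nonneg (hn₀ _) (Finset.sum_nonneg this),
        Finset.sum_eq_zero_iff_of_nonneg this]
      simp only [aeval_rename, Finset.mem_univ, forall_true_left]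
    constructor
    · rintro ⟨hs0, hs1⟩
      obtain ⟨y₀, hy₀⟩ := (hp₀ _).1 hs0
      have : ∀ i : Fin m, ∃ y : Fin r → ℚ,
          aeval (Sum.elim ![s i 0, s i 1, s (i + 1) 0, s (i + 1) 1] y) p₁ = 0 :=
        fun i => (hp₁ _).1 (hs1 i i.2)
      choose y₁ hy₁ using this
      refine ⟨fun a => match a with
        | (i, Sum.inl j) => s i j
        | (i, Sum.inr j) => Fin.cases (motive := fun _ => ℚ) (y₀ j) (fun i' => y₁ i' j) i,
        fun i j => rfl, ?_⟩
      rw [heval]
      constructor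
      · rw [← hy₀]
        congr 1
        congr 1
        funext a
        rcases a with j | j
        · rfl
        · rfl
      · intro i
        rw [← hy₁ i]
        congr 1
        congr 1
        funext a
        rcases a with j | j
        · fin_cases j <;> rfl
        · rfl
    · rintro ⟨x, hx, hx0⟩
      rw [heval] at hx0
      constructor
      · rw [hp₀]
        refine ⟨fun j => x (0, Sum.inr j), ?_⟩
        rw [← hx0.1]
        congr 1
        congr 1
        funext a
        rcases a with j | j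
        · exact (hx 0 j).symm
        · rfl
      · intro i hi
        rw [hp₁]
        refine ⟨fun j => x ((⟨i, hi⟩ : Fin m).succ, Sum.inr j), ?_⟩
        rw [← hx0.2 ⟨i, hi⟩]
        congr 1
        congr 1
        funext a
        rcases a with j | j
        · fin_cases j
          · exact (hx (⟨i, hi⟩ : Fin m).castSucc 0).symm
          · exact (hx (⟨i, hi⟩ : Fin m).castSucc 1).symm
          · exact (hx (⟨i, hi⟩ : Fin m).succ 0).symm
          · exact (hx (⟨i, hi⟩ : Fin m).succ 1).symm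
        · rfl

end Pool.Agent.H528R3
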