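import Pool.Agent.H528R3.Growth
import Pool.Agent.H528R2.Dio

/-!
# The start relation and the step relation are Diophantine over `ℚ`
-/

set_option autoImplicit false

namespace Pool.Agent.H528R3

open Pool.Agent.H528R2 Pool.Agent.H528R2.Chain Pool.Agent.H528R2.Dio

/-! ### multiplication by a positive integer -/

/-- multiplication by `k + 1` -/
def MulR : ℕ → ℚ → ℚ → ℚ → ℚ → Prop
  | 0, x, y, x', y' => x' = x ∧ y' = y
  | 1, x, y, x', y' => Dbl x y x' y'
  | (k + 2), x, y, x', y' => ∃ a b : ℚ, MulR (k + 1) x y a b ∧ Chd a b x y x' y'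

theorem mulR_iff (k : ℕ) {n : ℤ} (hn : n ≠ 0) (x' y' : ℚ) :
    MulR k (zz n) (yy n) x' y' ↔ x' = zz ((k + 1 : ℕ) * n) ∧ y' = yy ((k + 1 : ℕ) * n) := by
  induction k using Nat.strong_induction_on generalizing x' y' with
  | _ k ih =>
    match k, ih with
    | 0, _ => simp [MulR]
    | 1, _ =>
      simp only [MulR]
      rw [dbl_iff hn]
      norm_num
    | (k + 2), ih =>
      have h1 : ((k + 1 + 1 : ℕ) : ℤ) * n ≠ 0 := mul_ne_zero (by positivity) hn
      have hne : zz (((k + 1 + 1 : ℕ) : ℤ) * n) ≠ zz n := by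
        rw [Ne, zz_eq_iff h1 hn]
        rintro (h | h)
        · have h2 : (((k + 1 : ℕ) : ℤ)) * n = 0 := by push_cast at h ⊢; linarith
          exact mul_ne_zero (by positivity) hn h2
        · have h2 : (((k + 3 : ℕ) : ℤ)) * n = 0 := by push_cast at h ⊢; linarith
          exact mul_ne_zero (by positivity) hn h2
      have e : ((k + 1 + 1 : ℕ) : ℤ) * n + n = ((k + 2 + 1 : ℕ) : ℤ) * n := by push_cast; ring
      simp only [MulR]
      constructor
      · rintro ⟨a, b, h, h'⟩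
        obtain ⟨rfl, rfl⟩ := (ih (k + 1) (by omega) a b).1 h
        have := (chd_iff h1 hn hne _ _).1 h'
        rwa [e] at this
      · rintro ⟨rfl, rfl⟩
        refine ⟨_, _, (ih (k + 1) (by omega) _ _).2 ⟨rfl, rfl⟩, ?_⟩
        rw [chd_iff h1 hn hne, e]
        exact ⟨rfl, rfl⟩

theorem dq_MulR (k : ℕ) : ∀ {f g h l : (ℕ → ℚ) → ℚ}, PF f → PF g → PF h → PF l →
    DQ (fun v => MulR k (f v) (g v) (h v) (l v)) := by
  induction k using Nat.strong_induction_on with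
  | _ k ih =>
    match k, ih with
    | 0, _ =>
      intro f g h l hf hg hh hl
      exact (DQ.eq hh hf).and (DQ.eq hl hg)
    | 1, _ =>
      intro f g h l hf hg hh hl
      exact dq_Dbl hf hg hh hl
    | (k + 2), ih =>
      intro f g h l hf hg hh hl
      refine DQ.ex (DQ.ex ?_)
      exact (ih (k + 1) (by omega) hf.shift.shift hg.shift.shift (PF.var _) (PF.var _)).and
        (dq_Chd (PF.var _) (PF.var _) hf.shift.shift hg.shift.shift hh.shift.shift hl.shift.shift)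

/-- multiplication by the elements of a list -/
def MulL : List ℕ → ℚ → ℚ → ℚ → ℚ → Prop
  | [], x, y, x', y' => x' = x ∧ y' = y
  | (p :: ps), x, y, x', y' => ∃ a b : ℚ, MulR (p - 1) x y a b ∧ MulL ps a b x' y'

theorem mulL_iff (ps : List ℕ) (hp : ∀ p ∈ ps, 0 < p) {n : ℤ} (hn : n ≠ 0) (x' y' : ℚ) :
    MulL ps (zz n) (yy n) x' y' ↔ x' = zz ((ps.prod : ℕ) * n) ∧ y' = yy ((ps.prod : ℕ) * n) := by
  induction ps generalizing n with
  | nil => simp [MulL]
  | cons p ps ih =>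
    have hp0 : 0 < p := hp p (by simp)
    have hp1 : p - 1 + 1 = p := by omega
    have hpn : (p : ℤ) * n ≠ 0 := mul_ne_zero (by positivity) hn
    have ih := ih (fun q hq => hp q (by simp [hq])) hpn
    have e : ((ps.prod : ℕ) : ℤ) * ((p : ℤ) * n) = (((p :: ps).prod : ℕ) : ℤ) * n := by
      rw [List.prod_cons]; push_cast; ring
    rw [e] at ih
    rw [← ih]
    simp only [MulL]
    constructor
    · rintro ⟨a, b, h, h'⟩
      obtain ⟨rfl, rfl⟩ := (mulR_iff _ hn a b).1 h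
      rwa [hp1] at h'
    · intro h
      refine ⟨_, _, (mulR_iff _ hn _ _).2 ⟨rfl, rfl⟩, ?_⟩
      rwa [hp1]

theorem dq_MulL (ps : List ℕ) : ∀ {f g h l : (ℕ → ℚ) → ℚ}, PF f → PF g → PF h → PF l →
    DQ (fun v => MulL ps (f v) (g v) (h v) (l v)) := by
  induction ps with
  | nil =>
    intro f g h l hf hg hh hl
    exact (DQ.eq hh hf).and (DQ.eq hl hg)
  | cons p ps ih =>
    intro f g h l hf hg hh hl
    refine DQ.ex (DQ.ex ?_)
    exact (dq_MulR _ hf.shift.shift hg.shift.shift (PF.var _) (PF.var _)).and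
      (ih (PF.var _) (PF.var _) hh.shift.shift hl.shift.shift)

/-! ### the start -/

/-- eight primes inert in `ℚ(√2)` -/
def ps0 : List ℕ := [11, 13, 19, 29, 37, 43, 53, 59]

/-- the start relation -/
def StR (z y : ℚ) : Prop :=
  ∃ x u : ℚ, On x u ∧ IsSquare (5 * x) ∧ MulL ps0 x u z y

theorem stR_iff (z y : ℚ) :
    StR z y ↔ ∃ M : ℤ, Odd M ∧ ((ps0.prod : ℕ) : ℤ) ∣ M ∧ z = zz M ∧ y = yy M := by
  have hodd : Odd ((ps0.prod : ℕ) : ℤ) := by
    have : Odd (ps0.prod) := by decide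
    exact_mod_cast this
  have hpos : ∀ p ∈ ps0, 0 < p := by decide
  constructor
  · rintro ⟨x, u, ⟨hx, h⟩, hs, hm⟩
    obtain ⟨n, hn, rfl, rfl⟩ := generator hx h (Or.inr hs)
    have hno := (odd_iff hn).2 hs
    obtain ⟨rfl, rfl⟩ := (mulL_iff ps0 hpos hn z y).1 hm
    exact ⟨_, hodd.mul hno, dvd_mul_right _ _, rfl, rfl⟩
  · rintro ⟨M, hM, ⟨n, rfl⟩, rfl, rfl⟩
    have hno : Odd n := (Int.odd_mul.1 hM).2
    have hn : n ≠ 0 := by rintro rfl; simp at hno
    exact ⟨zz n, yy n, zz_on hn, (odd_iff hn).1 hno, (mulL_iff ps0 hpos hn _ _).2 ⟨rfl, rfl⟩⟩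

theorem dio_start : DioQ 2 (fun x => StR (x 0) (x 1)) := by
  refine DQ.dioQ (P := fun x : Fin 2 → ℚ => StR (x 0) (x 1)) ?_
  refine DQ.ex (DQ.ex ?_)
  refine (dq_On (PF.var _) (PF.var _)).and ((DQ.isSquare ((PF.lit 5).mul (PF.var _))).and ?_)
  exact dq_MulL ps0 (PF.var _) (PF.var _) (PF.var _) (PF.var _)

theorem start_card {M : ℤ} (hM : M ≠ 0) (h : ((ps0.prod : ℕ) : ℤ) ∣ M) : 8 ≤ (UU M).card := by
  have hsub : ps0.toFinset ⊆ UU M := by
    intro p hp
    rw [List.mem_toFinset] at hp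
    rw [mem_UU hM]
    have h1 : (p : ℤ) ∣ ((ps0.prod : ℕ) : ℤ) := by exact_mod_cast List.dvd_prod hp
    refine ⟨?_, ?_, h1.trans h⟩
    · revert p
      intro p hp
      simp only [ps0, List.mem_cons, List.not_mem_nil, or_false] at hp
      rcases hp with rfl | rfl | rfl | rfl | rfl | rfl | rfl | rfl <;> intro _ <;>
        exact ⟨by norm_num, by norm_num⟩
    · simp only [ps0, List.mem_cons, List.not_mem_nil, or_false] at hp
      omega
  have h2 := Finset.card_le_card hsub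
  have h3 : ps0.toFinset.card = 8 := by decide
  omega

/-! ### the step -/

/-- the step relation -/
def StepR (z y z' y' : ℚ) : Prop :=
  On z' y' ∧ IsSquare (5 * z') ∧ ∃ a b c d p w q h r : ℚ, Oct z y a b ∧ Oct z' y' c d ∧
    p * b = a ∧ w * a = 1 ∧ q * c = a ∧ h = hst p w 1 ∧ r = nrm q ∧ Test p (h * r)

theorem stepR_iff {M : ℤ} (hM : M ≠ 0) (z' y' : ℚ) :
    StepR (zz M) (yy M) z' y' ↔ ∃ M' : ℤ, Odd M' ∧ z' = zz M' ∧ y' = yy M' ∧ Nx M M' := by
  have h8 := eight_ne hM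
  have hz := zz_ne h8
  have hy := yy_ne h8
  constructor
  · rintro ⟨⟨hx, hc⟩, hs, a, b, c, d, p, w, q, h, r, o1, o2, e1, e2, e3, e4, e5, ht⟩
    obtain ⟨n, hn, rfl, rfl⟩ := generator hx hc (Or.inr hs)
    have hno := (odd_iff hn).2 hs
    have h8n := eight_ne hn
    have hzn := zz_ne h8n
    obtain ⟨rfl, rfl⟩ := (oct_iff hM a b).1 o1
    obtain ⟨rfl, rfl⟩ := (oct_iff hn c d).1 o2
    obtain rfl := (eq_div_iff hy).2 e1
    obtain rfl := (eq_div_iff hz).2 e2
    obtain rfl := (eq_div_iff hzn).2 e3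
    subst e4 e5
    exact ⟨n, hno, rfl, rfl, (next_iff hM hn).1 ht⟩
  · rintro ⟨n, hno, rfl, rfl, hx⟩
    have hn : n ≠ 0 := by rintro rfl; simp at hno
    have h8n := eight_ne hn
    have hzn := zz_ne h8n
    exact ⟨zz_on hn, (odd_iff hn).1 hno, _, _, _, _, _, _, _, _, _,
      (oct_iff hM _ _).2 ⟨rfl, rfl⟩, (oct_iff hn _ _).2 ⟨rfl, rfl⟩, div_mul_cancel₀ _ hy,
      one_div_mul_cancel hz, div_mul_cancel₀ _ hzn, rfl, rfl, (next_iff hM hn).2 hx⟩

theorem dio_step : DioQ 4 (fun x => StepR (x 0) (x 1) (x 2) (x 3)) := by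
  refine DQ.dioQ (P := fun x : Fin 4 → ℚ => StepR (x 0) (x 1) (x 2) (x 3)) ?_
  refine (dq_On (PF.var _) (PF.var _)).and ((DQ.isSquare ((PF.lit 5).mul (PF.var _))).and ?_)
  refine DQ.ex (DQ.ex (DQ.ex (DQ.ex (DQ.ex (DQ.ex (DQ.ex (DQ.ex (DQ.ex ?_))))))))
  refine (dq_Oct (PF.var _) (PF.var _) (PF.var _) (PF.var _)).and ?_
  refine (dq_Oct (PF.var _) (PF.var _) (PF.var _) (PF.var _)).and ?_
  refine (DQ.eq ((PF.var _).mul (PF.var _)) (PF.var _)).and ?_
  refine (DQ.eq ((PF.var _).mul (PF.var _)) PF.one).and ?_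
  refine (DQ.eq ((PF.var _).mul (PF.var _)) (PF.var _)).and ?_
  refine (dq_hst (PF.var _) (PF.var _) PF.one (PF.var _)).and ?_
  refine (dq_nrm (PF.var _) (PF.var _)).and ?_
  exact dq_test (PF.var _) ((PF.var _).mul (PF.var _))

end Pool.Agent.H528R3
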