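import Pool.Agent.H528R3.Height
import Pool.Agent.H528R3.Rel
import Pool.Agent.H528R3.PolyQ

/-!
# Polynomial equations whose smallest rational solutions are quadruply exponential
-/

set_option autoImplicit false

namespace Pool.Agent.H528R3

open Pool.Agent.H528R2 Pool.Agent.H528R2.Chain MvPolynomial

/-! ### chains -/

/-- the chain relation -/
def ChR (m : ℕ) (s : ℕ → Fin 2 → ℚ) : Prop :=
  StR (s 0 0) (s 0 1) ∧ ∀ i < m, StepR (s i 0) (s i 1) (s (i + 1) 0) (s (i + 1) 1)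

theorem ne_zero_of_odd {M : ℤ} (h : Odd M) : M ≠ 0 := by rintro rfl; simp at h

theorem chR_sound (m : ℕ) (s : ℕ → Fin 2 → ℚ) (h : ChR m s) :
    ∃ M : ℕ → ℤ, (∀ i ≤ m, Odd (M i) ∧ s i 0 = zz (M i) ∧ s i 1 = yy (M i)) ∧
      (∀ i < m, Nx (M i) (M (i + 1))) ∧ ((ps0.prod : ℕ) : ℤ) ∣ M 0 := by
  induction m with
  | zero =>
    obtain ⟨M, h1, h2, h3, h4⟩ := (stR_iff _ _).1 h.1
    refine ⟨fun _ => M, fun i hi => ?_, fun i hi => absurd hi (by omega), h2⟩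
    obtain rfl : i = 0 := by omega
    exact ⟨h1, h3, h4⟩
  | succ m ih =>
    obtain ⟨M, h1, h2, h3⟩ := ih ⟨h.1, fun i hi => h.2 i (by omega)⟩
    have h4 := h.2 m (by omega)
    obtain ⟨ho, e1, e2⟩ := h1 m le_rfl
    rw [e1, e2] at h4
    obtain ⟨M', ho', e1', e2', hx⟩ := (stepR_iff (ne_zero_of_odd ho) _ _).1 h4
    refine ⟨fun i => if i ≤ m then M i else M', fun i hi => ?_, fun i hi => ?_, ?_⟩
    · by_cases him : i ≤ m
      · simp only [if_pos him]; exact h1 i him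
      · obtain rfl : i = m + 1 := by omega
        simp only [if_neg him]
        exact ⟨ho', e1', e2'⟩
    · by_cases him : i + 1 ≤ m
      · simp only [if_pos him, if_pos (show i ≤ m by omega)]
        exact h2 i (by omega)
      · obtain rfl : i = m := by omega
        simp only [if_neg him, if_pos le_rfl]
        exact hx
    · simpa using h3

theorem exists_chain : ∃ M : ℕ → ℤ, (∀ i, Odd (M i)) ∧ (∀ i, Nx (M i) (M (i + 1))) ∧
    ((ps0.prod : ℕ) : ℤ) ∣ M 0 := by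
  obtain ⟨M₀, h₀⟩ : ∃ M₀ : {M : ℤ // Odd M}, ((ps0.prod : ℕ) : ℤ) ∣ M₀.1 := by
    have hodd : Odd ((ps0.prod : ℕ) : ℤ) := by
      have : Odd (ps0.prod) := by decide
      exact_mod_cast this
    exact ⟨⟨_, hodd⟩, dvd_refl _⟩
  have hstep : ∀ M : {M : ℤ // Odd M}, ∃ M' : {M : ℤ // Odd M}, Nx M.1 M'.1 := by
    rintro ⟨M, hM⟩
    obtain ⟨M', h1, h2⟩ := exists_next (ne_zero_of_odd hM) hM
    exact ⟨⟨M', h1⟩, h2⟩
  choose f hf using hstep
  exact ⟨fun i => (Nat.rec M₀ (fun _ a => f a) i : {M : ℤ // Odd M}).1,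
    fun i => (Nat.rec M₀ (fun _ a => f a) i : {M : ℤ // Odd M}).2, fun i => hf _, h₀⟩

theorem chR_exists (m : ℕ) : ∃ s, ChR m s := by
  obtain ⟨M, h1, h2, h3⟩ := exists_chain
  refine ⟨fun i j => if j = 0 then zz (M i) else yy (M i), ?_, fun i _ => ?_⟩
  · simp only [if_true, one_ne_zero, if_false]
    exact (stR_iff _ _).2 ⟨M 0, h1 0, h3, rfl, rfl⟩
  · simp only [if_true, one_ne_zero, if_false]
    exact (stepR_iff (ne_zero_of_odd (h1 i)) _ _).2 ⟨M (i + 1), h1 (i + 1), rfl, rfl, h2 i⟩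

/-! ### the size of the solutions -/

theorem numeric (N : ℕ) (hN : 0 < N) (K : ℝ) : ∃ s : ℕ, ∀ n M : ℕ,
    11 ^ (4 * 2 ^ (2 ^ (n + s))) ≤ M → (2 : ℝ) ^ (2 ^ (2 ^ n)) ≤ (M : ℝ) / N - K := by
  obtain ⟨L₀, hL₀⟩ := exists_nat_ge ((N : ℝ) * (1 + |K|))
  obtain ⟨L, hL⟩ : ∃ L : ℕ, L₀ ≤ 2 ^ L := ⟨L₀, Nat.lt_two_pow_self.le⟩
  refine ⟨L, fun n M hM => ?_⟩
  set X := 2 ^ (2 ^ n) with hX
  have hX1 : 1 ≤ X := Nat.one_le_two_pow
  have hX2 : 2 ≤ X := by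
    calc 2 = 2 ^ 1 := rfl
      _ ≤ 2 ^ (2 ^ n) := Nat.pow_le_pow_right (by norm_num) Nat.one_le_two_pow
  have h1 : X * (L + 1) ≤ 2 ^ (2 ^ (n + L)) := by
    have e : 2 ^ (2 ^ (n + L)) = X * X ^ (2 ^ L - 1) := by
      have h2 : 1 ≤ 2 ^ L := Nat.one_le_two_pow
      rw [← pow_succ', Nat.sub_add_cancel h2, hX, ← pow_mul, pow_add]
    rw [e]
    apply Nat.mul_le_mul_left
    have h3 : L + 1 ≤ 2 ^ L := Nat.lt_two_pow_self
    have h4 : L ≤ 2 ^ L - 1 := by omega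
    calc L + 1 ≤ 2 ^ L := h3
      _ ≤ X ^ L := Nat.pow_le_pow_left hX2 L
      _ ≤ X ^ (2 ^ L - 1) := Nat.pow_le_pow_right hX1 h4
  have h2 : 2 ^ L * 2 ^ X ≤ M := by
    calc 2 ^ L * 2 ^ X = 2 ^ (L + X) := (pow_add _ _ _).symm
      _ ≤ 2 ^ (X * (L + 1)) := Nat.pow_le_pow_right (by norm_num) (by nlinarith)
      _ ≤ 2 ^ (2 ^ (2 ^ (n + L))) := Nat.pow_le_pow_right (by norm_num) h1
      _ ≤ 11 ^ (2 ^ (2 ^ (n + L))) := Nat.pow_le_pow_left (by norm_num) _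
      _ ≤ 11 ^ (4 * 2 ^ (2 ^ (n + L))) := Nat.pow_le_pow_right (by norm_num) (by omega)
      _ ≤ M := hM
  have hN' : (0 : ℝ) < N := by exact_mod_cast hN
  have h3 : (N : ℝ) * (1 + |K|) ≤ (2 : ℝ) ^ L := hL₀.trans (by exact_mod_cast hL)
  have h4 : (2 : ℝ) ^ L * 2 ^ X ≤ M := by exact_mod_cast h2
  have h5 : (1 : ℝ) ≤ (2 : ℝ) ^ X := one_le_pow₀ (by norm_num)
  rw [le_sub_iff_add_le, le_div_iff₀ hN']
  calc ((2 : ℝ) ^ X + K) * N ≤ (2 : ℝ) ^ X * (1 + |K|) * N := by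
        apply mul_le_mul_of_nonneg_right _ hN'.le
        have := le_abs_self K
        nlinarith [abs_nonneg K]
    _ = (N * (1 + |K|)) * 2 ^ X := by ring
    _ ≤ 2 ^ L * 2 ^ X := mul_le_mul_of_nonneg_right h3 (by positivity)
    _ ≤ M := h4

/-- the last coordinate of a long chain is huge -/
theorem chain_huge : ∃ s : ℕ, ∀ n : ℕ, ∀ x : ℕ → Fin 2 → ℚ, ChR (n + s) x →
    2 ^ (2 ^ (2 ^ (2 ^ n))) ≤ max (x (n + s) 0).num.natAbs (x (n + s) 0).den := by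
  obtain ⟨N, hN, K, hK⟩ := ht_lower
  obtain ⟨s, hs⟩ := numeric N hN K
  refine ⟨s, fun n x hx => ?_⟩
  obtain ⟨M, h1, h2, h3⟩ := chR_sound _ _ hx
  have h4 := chain_large M (n + s) (fun i hi => (h1 i hi).1) h2
    (start_card (ne_zero_of_odd (h1 0 (by omega)).1) h3)
  obtain ⟨ho, e1, -⟩ := h1 (n + s) le_rfl
  have h5 := hs n _ h4
  have h6 := hK (M (n + s)).natAbs (by
    have := ne_zero_of_odd ho
    omega)
  have h7 : ht ((M (n + s)).natAbs : ℤ) = ht (M (n + s)) := by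
    rcases Int.natAbs_eq (M (n + s)) with h | h
    · rw [← h]
    · conv_rhs => rw [h]
      rw [ht_neg]
  rw [h7] at h6
  have h8 : (2 : ℝ) ^ (2 ^ (2 ^ n)) ≤ ht (M (n + s)) := h5.trans h6
  unfold ht at h8
  rw [← e1, Rat.logHeight₁_eq_log_max] at h8
  set Q := max (x (n + s) 0).num.natAbs (x (n + s) 0).den with hQ
  have hQ1 : 1 ≤ Q := le_max_of_le_right (x (n + s) 0).den_pos
  have hQ0 : (0 : ℝ) < ((Q : ℕ) : ℝ) := by exact_mod_cast hQ1
  have h9 : ((2 ^ (2 ^ (2 ^ (2 ^ n))) : ℕ) : ℝ) ≤ (Q : ℝ) := by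
    have h10 : (2 : ℝ) ≤ Real.exp 1 := by
      have := Real.add_one_le_exp (1 : ℝ); linarith
    have h11 : ((2 ^ (2 ^ (2 ^ (2 ^ n))) : ℕ) : ℝ) ≤ Real.exp ((2 : ℝ) ^ (2 ^ (2 ^ n))) := by
      push_cast
      calc (2 : ℝ) ^ (2 ^ (2 ^ (2 ^ n))) ≤ (Real.exp 1) ^ (2 ^ (2 ^ (2 ^ n))) :=
            pow_le_pow_left₀ (by norm_num) h10 _
        _ = Real.exp (((2 ^ (2 ^ (2 ^ n)) : ℕ) : ℝ)) := by
            rw [← Real.exp_nat_mul, mul_one]
        _ = _ := by push_cast; rfl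
    refine h11.trans ?_
    rw [← Real.le_log_iff_exp_le hQ0]
    exact h8
  exact_mod_cast h9

/-- Polynomial equations of degree at most `4`, of linear size, whose smallest rational solutions
are quadruply exponential. -/
theorem huge_solutions : ∃ C : ℕ, ∀ n : ℕ, ∃ p : MvPolynomial (Fin (C * (n + 1))) ℤ,
    p.totalDegree ≤ 4 ∧ ∑ m ∈ p.support, |p.coeff m| ≤ C * (n + 1) ∧
    (∃ x : Fin (C * (n + 1)) → ℚ, aeval x p = 0) ∧
    ∀ x : Fin (C * (n + 1)) → ℚ, aeval x p = 0 →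
      ∃ i, 2 ^ (2 ^ (2 ^ (2 ^ n))) ≤ max (x i).num.natAbs (x i).den := by
  obtain ⟨s, hs⟩ := chain_huge
  obtain ⟨r, B, hr⟩ := chain_poly dio_start dio_step
  refine ⟨(s + 1) * (2 + r) + (s + 1) * B.toNat, fun n => ?_⟩
  set C := (s + 1) * (2 + r) + (s + 1) * B.toNat with hC
  obtain ⟨p, hd, hl, hp⟩ := hr (n + s)
  have hcard : Fintype.card (Fin (n + s + 1) × (Fin 2 ⊕ Fin r)) ≤ Fintype.card (Fin (C * (n + 1))) := by
    simp only [Fintype.card_prod, Fintype.card_sum, Fintype.card_fin]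
    have h1 : n + s + 1 ≤ (s + 1) * (n + 1) := by nlinarith
    calc (n + s + 1) * (2 + r) ≤ ((s + 1) * (n + 1)) * (2 + r) := Nat.mul_le_mul_right _ h1
      _ = ((s + 1) * (2 + r)) * (n + 1) := by ring
      _ ≤ C * (n + 1) := Nat.mul_le_mul_right _ (by omega)
  obtain ⟨ι⟩ := Function.Embedding.nonempty_of_card_le hcard
  refine ⟨rename ι p, (totalDegree_rename_le _ _).trans hd, ?_, ?_, ?_⟩
  · change l1 (rename ι p) ≤ _
    refine (l1_rename _ _).trans (hl.trans ?_)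
    have h1 : B ≤ B.toNat := Int.self_le_toNat B
    have h2 : ((n + s : ℕ) : ℤ) + 1 ≤ ((s : ℤ) + 1) * (n + 1) := by push_cast; nlinarith
    have h3 : (0 : ℤ) ≤ (B.toNat : ℤ) := by positivity
    have h4 : (0 : ℤ) ≤ ((n + s : ℕ) : ℤ) + 1 := by positivity
    calc B * (((n + s : ℕ) : ℤ) + 1) ≤ B.toNat * (((n + s : ℕ) : ℤ) + 1) :=
          mul_le_mul_of_nonneg_right h1 h4
      _ ≤ B.toNat * (((s : ℤ) + 1) * (n + 1)) := mul_le_mul_of_nonneg_left h2 h3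
      _ = (((s + 1) * B.toNat : ℕ) : ℤ) * (n + 1) := by push_cast; ring
      _ ≤ (C : ℤ) * (n + 1) := by
          apply mul_le_mul_of_nonneg_right _ (by positivity)
          have : (s + 1) * B.toNat ≤ C := by omega
          exact_mod_cast this
  · obtain ⟨x, hx⟩ := chR_exists (n + s)
    obtain ⟨y, -, hy⟩ := (hp x).1 hx
    obtain ⟨z, hz⟩ := Function.Injective.surjective_comp_right (γ := ℚ) ι.injective y
    refine ⟨z, ?_⟩
    rw [aeval_rename]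
    have hz' : z ∘ (ι : _ → _) = y := hz
    rw [hz', hy]
  · intro x hx
    rw [aeval_rename] at hx
    have hch : ChR (n + s) (fun i j => if h : i < n + s + 1 then x (ι (⟨i, h⟩, Sum.inl j)) else 0) := by
      have := (hp (fun i j => if h : i < n + s + 1 then x (ι (⟨i, h⟩, Sum.inl j)) else 0)).2
        ⟨x ∘ ι, fun i j => by simp only [Function.comp, dif_pos i.2], hx⟩
      exact this
    have h1 := hs n _ hch
    simp only [dif_pos (show n + s < n + s + 1 by omega)] at h1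
    exact ⟨_, h1⟩

end Pool.Agent.H528R3
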