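import Pool.Agent.H528R2.Atoms
import Pool.Agent.H528R2.TestIff
import Pool.Agent.H528R2.Obs

/-!
# The step relation: all primes visible at `M` divide `M'`
-/

set_option autoImplicit false

namespace Pool.Agent.H528R3

open Pool.Agent.H528R2 Pool.Agent.H528R2.Chain

/-- the step relation, for the coordinates of `8 M P0` and `8 M' P0` -/
def NextF (a b c : ℚ) : Prop :=
  Test (a / b) (hst (a / b) (1 / a) 1 * nrm (a / c))

theorem next_iff {M M' : ℤ} (hM : M ≠ 0) (hM' : M' ≠ 0) :
    NextF (zz (8 * M)) (yy (8 * M)) (zz (8 * M')) ↔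
      ∀ t, Inert t → Vis t M → Odd (dd t (8 * M)) → Hi t M M' := by
  have hz := zz_ne (eight_ne hM)
  have hy := yy_ne (eight_ne hM)
  have hz' := zz_ne (eight_ne hM')
  have hN : zz (8 * M) / yy (8 * M) ≠ 0 := div_ne_zero hz hy
  have hw : 1 / zz (8 * M) ≠ 0 := one_div_ne_zero hz
  unfold NextF
  rw [test_iff hN]
  constructor
  · intro h t ht hv hodd
    have h1 := val_zz_vis ht.1 hM hv
    have hvN : padicValRat t (zz (8 * M) / yy (8 * M)) = dd t (8 * M) := by
      rw [val_div ht.1 hz hy]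
      omega
    have h2 := h t ht (by rw [hvN]; exact_mod_cast hodd)
    obtain ⟨h3, h4⟩ := val_hst ht hN hw one_ne_zero
    have h5 : padicValRat t (hst (zz (8 * M) / yy (8 * M)) (1 / zz (8 * M)) 1) = 0 := by
      rw [h4, hvN, val_div ht.1 one_ne_zero hz, padicValRat.one]
      have : |((dd t (8 * M) : ℕ) : ℤ)| = dd t (8 * M) := abs_of_nonneg (by omega)
      rw [this]
      omega
    have hq : zz (8 * M) / zz (8 * M') ≠ 0 := div_ne_zero hz hz'
    have hn : nrm (zz (8 * M) / zz (8 * M')) ≠ 0 := fun h => hq (nrm_eq_zero.1 h)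
    rw [← quot_iff ht hM hM' hv, ← vge_one_nrm ht]
    right
    have h6 := h2.le (mul_ne_zero h3 hn)
    rw [val_mul ht.1 h3 hn, h5, zero_add] at h6
    exact h6
  · intro h q hq hodd
    have hvN : padicValRat q (zz (8 * M) / yy (8 * M)) ≠ 0 := by
      intro h0; rw [h0] at hodd; simp at hodd
    obtain ⟨h3, h4⟩ := val_hst hq hN hw one_ne_zero
    by_cases hv : Vis q M
    · have h1 := val_zz_vis hq.1 hM hv
      have hvN : padicValRat q (zz (8 * M) / yy (8 * M)) = dd q (8 * M) := by
        rw [val_div hq.1 hz hy]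
        omega
      rw [hvN] at hodd
      have h2 := h q hq hv (by exact_mod_cast hodd)
      rw [← quot_iff hq hM hM' hv, ← vge_one_nrm hq] at h2
      have h5 : Vge q 0 (hst (zz (8 * M) / yy (8 * M)) (1 / zz (8 * M)) 1) := by
        right; rw [h4]; omega
      simpa using Vge.mul hq.1 h5 h2
    · have h5 : Vge q 1 (hst (zz (8 * M) / yy (8 * M)) (1 / zz (8 * M)) 1) := by
        right
        rw [h4, val_div hq.1 one_ne_zero hz, padicValRat.one]
        have e3 := val_zz_not_vis hq.1 hM hv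
        have e5 : 0 < |padicValRat q (zz (8 * M) / yy (8 * M))| := abs_pos.2 hvN
        omega
      simpa using Vge.mul hq.1 h5 (vge_nrm hq _)

/-- the step relation on integers -/
def Nx (M M' : ℤ) : Prop := ∀ t, Inert t → Vis t M → Odd (dd t (8 * M)) → Hi t M M'

/-- every nonzero integer has a successor, with an odd quotient -/
theorem exists_next {M : ℤ} (hM : M ≠ 0) (ho : Odd M) : ∃ M' : ℤ, Odd M' ∧ Nx M M' := by
  have hfin := finite_rk (eight_ne hM)
  classical
  set T := hfin.toFinset.filter (fun t => Inert t) with hT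
  refine ⟨M * ∏ t ∈ T, (t : ℤ), ?_, ?_⟩
  · refine ho.mul ?_
    refine Finset.prod_induction _ (fun x : ℤ => Odd x) (fun a b ha hb => ha.mul hb) (by simp) ?_
    intro t ht
    rw [hT, Finset.mem_filter] at ht
    have h2 : t % 2 = 1 := by rcases ht.2.2 with h | h <;> omega
    exact_mod_cast Nat.odd_iff.2 h2
  · intro t ht hv _
    have hmem : t ∈ T := by
      rw [hT, Finset.mem_filter, Set.Finite.mem_toFinset]
      exact ⟨⟨ht.1, hv⟩, ht⟩
    have hP : (∏ t ∈ T, (t : ℤ)) ≠ 0 := by
      rw [Finset.prod_ne_zero_iff]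
      intro s hs
      rw [hT, Finset.mem_filter] at hs
      exact_mod_cast hs.2.1.ne_zero
    refine ⟨Vis.of_dvd hv (dvd_mul_right _ _), ?_⟩
    have := Fact.mk ht.1
    rw [padicValInt.mul hM hP]
    have h1 : (t : ℤ) ^ 1 ∣ ∏ t ∈ T, (t : ℤ) := by
      rw [pow_one]; exact Finset.dvd_prod_of_mem _ hmem
    rw [padicValInt_dvd_iff] at h1
    have := h1.resolve_left hP
    omega

end Pool.Agent.H528R3
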